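import Mathlib

/-! Three planes glued along two axes: solutions of the recursion in the lowest degree. -/

namespace Pool.Agent.Lib.MP_b9b9f8_al.Wild

open PowerSeries

variable {D : Type} [CommRing D] [IsDomain D]

lemma chain {l : D} (hl : IsUnit l) (N : ℕ) (W : Fin (N + 1) → D⟦X⟧⟦X⟧)
    (h : ∀ j : Fin N, W j.succ * C X ^ 2 + W j.castSucc * -(C (C l) * C X * X) = 0) :
    ∃ c c' : D⟦X⟧, constantCoeff (W 0) = X ^ N * c ∧
      map constantCoeff (W (Fin.last N)) = X ^ N * (C (l ^ N) * c') ∧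
      constantCoeff c = constantCoeff c' := by
  have hx : (C X : D⟦X⟧⟦X⟧) ≠ 0 := fun e => X_ne_zero (C_injective (e.trans (map_zero _).symm))
  have key : ∀ j : Fin (N + 1), (C (C l) * X) ^ (j : ℕ) * W 0 = C X ^ (j : ℕ) * W j := by
    intro j
    induction j using Fin.induction with
    | zero => simp
    | succ j ih =>
      rw [Fin.val_succ, Fin.val_castSucc] at *
      apply mul_left_cancel₀ hx
      rw [pow_succ, pow_succ]
      linear_combination (C X * C (C l) * X) * ih - C X ^ (j : ℕ) * h j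
  have h1 := key (Fin.last N)
  rw [Fin.val_last] at h1
  have h2 : (X : D⟦X⟧⟦X⟧) ^ N ∣ C X ^ N * W (Fin.last N) := by
    rw [← h1, mul_pow]
    exact ((dvd_refl _).mul_left _).mul_right _
  obtain ⟨c, hc⟩ := X_prime.pow_dvd_of_dvd_mul_left N (fun hd => by
    have := X_dvd_iff.1 (X_prime.dvd_of_dvd_pow hd)
    rw [constantCoeff_C] at this
    exact X_ne_zero this) h2
  obtain ⟨u, hu⟩ := hl.exists_left_inv
  have h3 : (C (C u) : D⟦X⟧⟦X⟧) ^ N * C (C l) ^ N = 1 := by
    rw [← mul_pow, ← map_mul, ← map_mul, hu, map_one, map_one, one_pow]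
  have h4 : W 0 = C X ^ N * (C (C u) ^ N * c) := by
    apply X_pow_mul_cancel (k := N)
    rw [hc, mul_pow] at h1
    linear_combination C (C u) ^ N * h1 - X ^ N * W 0 * h3
  refine ⟨constantCoeff (C (C u) ^ N * c), map constantCoeff (C (C u) ^ N * c), ?_, ?_, ?_⟩
  · rw [h4, map_mul, map_pow, constantCoeff_C]
  · have h5 : (C u : D⟦X⟧) ^ N * C l ^ N = 1 := by
      rw [← mul_pow, ← map_mul, hu, map_one, one_pow]
    rw [hc]
    simp only [map_mul, map_pow, map_X, map_C, constantCoeff_C]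
    linear_combination -(X ^ N * map constantCoeff c) * h5
  · rw [← coeff_zero_eq_constantCoeff_apply (map _ _), coeff_map, coeff_zero_eq_constantCoeff_apply]

theorem glue {R : Type} [CommRing R] (θ : Fin 3 → R →+* D⟦X⟧⟦X⟧⟦X⟧) (l : Fin 3 → D)
    (hl : ∀ i, IsUnit (l i)) (hl0 : l 0 = 1) (m₁ m₂ : D)
    (x0 : ∀ i r, constantCoeff (constantCoeff (θ i r)) = constantCoeff (constantCoeff (θ 0 r)))
    (x1 : ∀ r, constantCoeff (coeff 1 (θ 0 r)) =
      C m₁ * constantCoeff (coeff 1 (θ 1 r)) + C m₂ * constantCoeff (coeff 1 (θ 2 r)))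
    (y0 : ∀ i r, map constantCoeff (constantCoeff (θ i r)) =
      map constantCoeff (constantCoeff (θ 0 r)))
    (y1 : ∀ r, map constantCoeff (coeff 1 (θ 0 r)) =
      map constantCoeff (coeff 1 (θ 1 r)) + map constantCoeff (coeff 1 (θ 2 r)))
    (a b : R) (ha : ∀ i, θ i a = C (C X ^ 2)) (hb : ∀ i, θ i b = C (-(C (C (l i)) * C X * X)))
    (N : ℕ) (hN : l 1 ^ N ≠ 1) (g : Fin (N + 1) → R)
    (hg : ∀ i, ∀ j : Fin N, θ i (g j.succ * a + g j.castSucc * b) = 0) :
    ∃ (c₀ c₁ : D⟦X⟧) (d : D), constantCoeff (constantCoeff (θ 1 (g 0))) = X ^ N * c₀ ∧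
      constantCoeff c₀ = 0 ∧ constantCoeff (coeff 1 (θ 1 (g 0))) = X ^ N * c₁ ∧
      (m₁ - l 1 ^ N) * constantCoeff c₁ + (m₂ - l 2 ^ N) * d = 0 := by
  have h : ∀ (n : ℕ) i, ∀ j : Fin N, coeff n (θ i (g j.succ)) * C X ^ 2 +
      coeff n (θ i (g j.castSucc)) * -(C (C (l i)) * C X * X) = 0 := fun n i j => by
    have := congrArg (coeff n) (hg i j)
    rwa [map_add, map_mul, map_mul, ha, hb, map_add, coeff_mul_C, coeff_mul_C, map_zero] at this
  choose c c' h1 h2 h3 using fun n i => chain (hl i) N (fun j => coeff n (θ i (g j))) (h n i)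
  have e0 : ∀ i, constantCoeff (constantCoeff (θ i (g 0))) = X ^ N * c 0 i := fun i => by
    rw [← h1, coeff_zero_eq_constantCoeff_apply]
  have e1 : ∀ i, map constantCoeff (constantCoeff (θ i (g (Fin.last N)))) =
      X ^ N * (C (l i ^ N) * c' 0 i) := fun i => by
    rw [← h2, coeff_zero_eq_constantCoeff_apply]
  have a1 : c 0 1 = c 0 0 := X_pow_mul_cancel (by rw [← e0, ← e0, x0])
  have a2 : C (l 1 ^ N) * c' 0 1 = C (l 0 ^ N) * c' 0 0 := X_pow_mul_cancel (by rw [← e1, ← e1, y0])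
  have a3 : c 1 0 = C m₁ * c 1 1 + C m₂ * c 1 2 := X_pow_mul_cancel (k := N) (by
    rw [← h1, x1, h1, h1]
    ring)
  have a4 : C (l 0 ^ N) * c' 1 0 = C (l 1 ^ N) * c' 1 1 + C (l 2 ^ N) * c' 1 2 :=
    X_pow_mul_cancel (k := N) (by
      rw [← h2, y1, h2, h2]
      ring)
  have b2 := congrArg constantCoeff a2
  have b3 := congrArg constantCoeff a3
  have b4 := congrArg constantCoeff a4
  simp only [map_mul, map_add, constantCoeff_C, ← h3, hl0, one_pow, one_mul, map_one] at b2 b3 b4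
  refine ⟨c 0 1, c 1 1, constantCoeff (c 1 2), e0 1, ?_, h1 1 1, by linear_combination b4 - b3⟩
  rw [← a1] at b2
  exact (mul_eq_zero.1 (show (l 1 ^ N - 1) * constantCoeff (c 0 1) = 0 by
    linear_combination b2)).resolve_left (sub_ne_zero.2 hN)

end Pool.Agent.Lib.MP_b9b9f8_al.Wild
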