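import Mathlib
import Pool.Agent.Lib.MP_b9b9f8_al.Lower

/-! Generators of `Tor(I, J)` and solutions of the recursion `a w_(j+1) + b w_j = 0` modulo `I`. -/

namespace Pool.Agent.Lib.MP_b9b9f8_al.Wild

open Matrix TensorProduct CategoryTheory

variable {R : Type} [CommRing R]

/-- The multiplication map `I ⊗ M → M`. -/
noncomputable def mulI (I : Ideal R) (M : Type) [AddCommGroup M] [Module R M] :
    I ⊗[R] M →ₗ[R] M := (TensorProduct.lid R M).toLinearMap ∘ₗ I.subtype.rTensor M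

section mul

variable (I : Ideal R) {M N : Type} [AddCommGroup M] [Module R M] [AddCommGroup N] [Module R N]

lemma mulI_tmul (π : I) (v : M) : mulI I M (π ⊗ₜ v) = (π : R) • v := rfl

lemma mulI_nat (d : M →ₗ[R] N) (y : I ⊗[R] M) : mulI I N (d.lTensor I y) = d (mulI I M y) := by
  induction y using TensorProduct.induction_on with
  | zero => simp
  | tmul π v => rw [LinearMap.lTensor_tmul, mulI_tmul, mulI_tmul, map_smul]
  | add y y' hy hy' => simp only [map_add, hy, hy']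

lemma mulI_inj [Module.Flat R M] : Function.Injective (mulI I M) := by
  rw [mulI, LinearMap.coe_comp]
  exact (TensorProduct.lid R M).injective.comp
    (Module.Flat.rTensor_preserves_injective_linearMap _ I.injective_subtype)

lemma mulI_mem (c : M →ₗ[R] N) (P : Submodule R N) (h : ∀ π ∈ I, ∀ v, π • c v ∈ P)
    (y : I ⊗[R] M) : c (mulI I M y) ∈ P := by
  induction y using TensorProduct.induction_on with
  | zero => simp
  | tmul π v => rw [mulI_tmul, map_smul]; exact h _ π.2 v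
  | add y y' hy hy' => rw [map_add, map_add]; exact P.add_mem hy hy'

lemma exists_mulI {m : ℕ} (v : Fin (m + 1) → Fin 3 → R) (h : ∀ j k, v j k ∈ I) :
    ∃ y, mulI I (FO R m) y = (v, 0) := by
  refine ⟨∑ j, ∑ k, (⟨v j k, h j k⟩ : I) ⊗ₜ ((Pi.single j (Pi.single k 1), 0) : FO R m), ?_⟩
  simp only [map_sum, mulI_tmul]
  refine Prod.ext (funext fun j => funext fun k => ?_) ?_
  · simp [Prod.fst_sum, Finset.sum_apply, Pi.single_apply, apply_ite (fun f : Fin 3 → R => f k)]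
  · simp [Prod.snd_sum]

end mul

theorem low_span {B : Type} [CommRing B] (ψ : R →+* B) (K : Kos R) (I J : Ideal R)
    (hx : ∀ i, ψ (K.x i) = 0) (hI : ∀ r ∈ I, ψ r = 0) (hJp : J ≤ K.p) (t : R)
    (hJ : ∀ r ∈ K.p, t * r ∈ J) (m μ : ℕ)
    (hμ : Gen R (tor R (ModuleCat.of R I) (ModuleCat.of R J) (2 * m + 1 + 1)) μ) :
    ∃ (σ : Type) (s : Finset σ) (g : σ → Fin (m + 3) → R), s.card ≤ μ ∧
      (∀ u, ∀ j : Fin (m + 2), ∃ c ∈ K.p, g u j.succ * K.a 0 + g u j.castSucc * K.b 0 + c ∈ I) ∧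
      ∀ w : Fin (m + 3) → R, (∀ (j : Fin (m + 2)) k, w j.succ * K.a k + w j.castSucc * K.b k ∈ I) →
        ∃ r : σ → R, ψ (t * w 0) = ∑ u ∈ s, ψ (r u) * ψ (g u 0) := by
  let _ : Algebra R B := ψ.toAlgebra
  let c : FE R (m + 2) →ₗ[R] B :=
    Algebra.linearMap R B ∘ₗ LinearMap.proj (0 : Fin (m + 3)) ∘ₗ LinearMap.fst R _ _
  have hc : ∀ z, c z = ψ (z.1 0) := fun _ => rfl
  obtain ⟨c', hc'⟩ := exists_lift (K.dE (m + 1)).rangeRestrict
    (K.dE (m + 1)).surjective_rangeRestrict c fun z hz => by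
      obtain ⟨z', rfl⟩ := (K.exact_E (m + 1) z).1 (congrArg Subtype.val hz)
      rw [hc, K.dO_fst]
      simp [dotProduct, hx]
  have hr : ∀ y : LinearMap.ker ((K.dO (m + 1)).lTensor I),
      mulI I _ y.1 ∈ LinearMap.range (K.dE (m + 1)) := fun y =>
    (K.exact_O (m + 1) _).1 (by rw [← mulI_nat, y.2, map_zero])
  let Φ₀ : LinearMap.ker ((K.dO (m + 1)).lTensor I) →ₗ[R] B :=
    c' ∘ₗ LinearMap.codRestrict _ (mulI I _ ∘ₗ Submodule.subtype _) hr
  have hΦ₀ : ∀ (y : LinearMap.ker ((K.dO (m + 1)).lTensor I)) z,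
      K.dE (m + 1) z = mulI I _ y.1 → Φ₀ y = ψ (z.1 0) := fun y z hz => by
    rw [← hc, ← hc']
    exact congrArg c' (Subtype.ext hz.symm)
  obtain ⟨π, hπ, hπ0⟩ := K.tor_p I m
  obtain ⟨Φ, hΦ⟩ := exists_lift (R := R) (M := LinearMap.ker ((K.dO (m + 1)).lTensor I))
    (N := tor R (ModuleCat.of R I) (ModuleCat.of R K.p) (2 * m + 1 + 1)) (T := B) π hπ Φ₀
    fun y hy => by
      obtain ⟨w, hw⟩ := (hπ0 y).1 hy
      rw [hΦ₀ y (mulI I _ w) (by rw [← mulI_nat, hw]), ← hc]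
      exact mulI_mem I c ⊥ (fun π hπ v => by
        rw [Submodule.mem_bot, Algebra.smul_def]
        exact (congrArg (· * c v) (hI π hπ)).trans (zero_mul _)) w
  have hall : ∀ η, ∃ g : Fin (m + 3) → R, Φ η = ψ (g 0) ∧ ∀ j : Fin (m + 2),
      ∃ c ∈ K.p, g j.succ * K.a 0 + g j.castSucc * K.b 0 + c ∈ I := by
    intro η
    obtain ⟨y, rfl⟩ := hπ η
    obtain ⟨z, hz⟩ := hr y
    refine ⟨z.1, by rw [hΦ, hΦ₀ y z hz], fun j => ⟨(z.2 j ⨯₃ K.x) 0, ?_, ?_⟩⟩
    · rw [K.mem_p]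
      exact ⟨![0, -z.2 j 2, z.2 j 1], by simp [cross_apply, dotProduct, Fin.sum_univ_three]; ring⟩
    · have := mulI_mem I ((LinearMap.proj (0 : Fin 3) : (Fin 3 → R) →ₗ[R] R) ∘ₗ
        (LinearMap.proj j : (Fin (m + 2) → Fin 3 → R) →ₗ[R] _) ∘ₗ
          LinearMap.fst R _ (Fin (m + 1) → R)) I (fun π hπ v => I.mul_mem_right _ hπ) y.1
      rw [← hz] at this
      exact this
  let F := (Tor (ModuleCat.{0} R) (2 * m + 1 + 1)).obj (ModuleCat.of R I)
  let f : ModuleCat.of R K.p ⟶ ModuleCat.of R J := ModuleCat.ofHom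
    { toFun := fun r => ⟨t * r.1, hJ _ r.2⟩
      map_add' := fun r r' => Subtype.ext (by simp [mul_add])
      map_smul' := fun c r => Subtype.ext (by simp [mul_left_comm]) }
  let g : ModuleCat.of R J ⟶ ModuleCat.of R K.p := ModuleCat.ofHom (Submodule.inclusion hJp)
  have hfg : f ≫ g = t • 𝟙 _ := by
    ext r
    rfl
  have hF : ∀ η : F.obj (ModuleCat.of R K.p), (F.map g).hom ((F.map f).hom η) = t • η := by
    intro η
    have h1 : F.map f ≫ F.map g = t • 𝟙 _ := by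
      rw [← F.map_comp, hfg]
      exact tor_map_smul _ _ _ _
    exact congrArg (fun φ => φ.hom η) h1
  obtain ⟨s, hs, hspan⟩ := hμ
  choose q hq hq' using fun u : tor R (ModuleCat.of R I) (ModuleCat.of R J) (2 * m + 1 + 1) =>
    hall ((F.map g).hom u)
  refine ⟨_, s, q, hs, hq', fun w hw => ?_⟩
  obtain ⟨y, hy⟩ := exists_mulI I (fun j k => w j.succ * K.a k + w j.castSucc * K.b k) hw
  have hd : K.dE (m + 1) (w, 0) = mulI I _ y := by
    rw [hy]
    refine Prod.ext (funext fun j => funext fun k => ?_) (funext fun j => ?_)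
    · simp [K.dE_fst]
    · simp [K.dE_snd]
  have hy0 : y ∈ LinearMap.ker ((K.dO (m + 1)).lTensor I) := by
    apply mulI_inj I
    rw [mulI_nat, ← hd, K.dO_dE, map_zero]
  let ζ := π ⟨y, hy0⟩
  have hζ : Φ ζ = ψ (w 0) := by rw [hΦ, hΦ₀ ⟨y, hy0⟩ _ hd]
  let ξ : tor R (ModuleCat.of R I) (ModuleCat.of R J) (2 * m + 1 + 1) := (F.map f).hom ζ
  have hmem : ξ ∈ Submodule.span R
      (s : Set (tor R (ModuleCat.of R I) (ModuleCat.of R J) (2 * m + 1 + 1))) := by
    rw [hspan]; trivial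
  obtain ⟨r, -, hr⟩ := (Submodule.mem_span_finset).1 hmem
  refine ⟨r, ?_⟩
  let G : tor R (ModuleCat.of R I) (ModuleCat.of R J) (2 * m + 1 + 1) →ₗ[R] B :=
    Φ ∘ₗ (F.map g).hom
  have h3 : G (∑ u ∈ s, r u • u) = ∑ u ∈ s, ψ (r u) * ψ (q u 0) := by
    rw [map_sum]
    refine Finset.sum_congr rfl fun u _ => ?_
    rw [map_smul, Algebra.smul_def, ← hq u]
    rfl
  rw [← h3, hr, map_mul, ← hζ]
  exact ((congrArg Φ (hF ζ)).trans ((Φ.map_smul t ζ).trans (Algebra.smul_def _ _))).symm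

end Pool.Agent.Lib.MP_b9b9f8_al.Wild
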