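import Mathlib

/-! Power series rings in finitely many variables: regularity, completeness, homomorphisms. -/

namespace Pool.Agent.Lib.MP_b9b9f8_al.Wild

open MvPowerSeries IsLocalRing

variable {σ K : Type}

lemma mem_span_X_fin [CommRing K] [DecidableEq σ] (s : Finset σ) (f : MvPowerSeries σ K)
    (h : ∀ d : σ →₀ ℕ, (∀ i ∈ s, d i = 0) → coeff d f = 0) :
    f ∈ Ideal.span (X '' (s : Set σ) : Set (MvPowerSeries σ K)) := by
  induction s using Finset.induction_on generalizing f with
  | empty =>
    have : f = 0 := MvPowerSeries.ext fun d => h d (by simp)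
    rw [this]
    exact Ideal.zero_mem _
  | insert i t _ ih =>
    let f₀ : MvPowerSeries σ K := fun d => if d i = 0 then coeff d f else 0
    have e0 : ∀ d, coeff d f₀ = if d i = 0 then coeff d f else 0 := fun _ => rfl
    have h1 : X i ∣ f - f₀ := X_dvd_iff.2 fun d hd => by rw [map_sub, e0, if_pos hd, sub_self]
    have h2 := ih f₀ fun d hd => by
      rw [e0]
      split_ifs with hi
      · exact h d fun j hj => by
          rcases Finset.mem_insert.1 hj with rfl | hj
          · exact hi
          · exact hd j hj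
      · rfl
    obtain ⟨g, hg⟩ := h1
    rw [sub_eq_iff_eq_add] at hg
    rw [hg]
    refine Ideal.add_mem _ (Ideal.mul_mem_right _ _ (Ideal.subset_span ⟨i, by simp, rfl⟩)) ?_
    exact Ideal.span_mono (Set.image_mono (by simp)) h2

lemma mem_span_X [CommRing K] [Finite σ] (s : Set σ) (f : MvPowerSeries σ K) :
    f ∈ Ideal.span (X '' s : Set (MvPowerSeries σ K)) ↔
      ∀ d : σ →₀ ℕ, (∀ i ∈ s, d i = 0) → coeff d f = 0 := by
  classical
  constructor
  · intro h
    induction h using Submodule.span_induction with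
    | mem x hx =>
      obtain ⟨i, hi, rfl⟩ := hx
      intro d hd
      rw [coeff_X, if_neg]
      rintro rfl
      simpa using hd i hi
    | zero => simp
    | add x y _ _ hx hy => intro d hd; rw [map_add, hx d hd, hy d hd, add_zero]
    | smul c x _ hx =>
      intro d hd
      rw [smul_eq_mul, coeff_mul]
      refine Finset.sum_eq_zero fun p hp => ?_
      rw [hx p.2 fun i hi => ?_, mul_zero]
      have := DFunLike.congr_fun (Finset.HasAntidiagonal.mem_antidiagonal.1 hp) i
      rw [Finsupp.add_apply, hd i hi] at this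
      omega
  · intro h
    have := mem_span_X_fin s.toFinite.toFinset f fun d hd => h d fun i hi => hd i (by simpa using hi)
    simpa using this

lemma reg_X [CommRing K] [Finite σ] (s : Set σ) (j : σ) (hj : j ∉ s) (g : MvPowerSeries σ K)
    (h : X j * g ∈ Ideal.span (X '' s : Set (MvPowerSeries σ K))) :
    g ∈ Ideal.span (X '' s : Set (MvPowerSeries σ K)) := by
  classical
  rw [mem_span_X] at h ⊢
  intro d hd
  have := h (Finsupp.single j 1 + d) fun i hi => by
    have hij : j ≠ i := fun e => hj (e ▸ hi)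
    simp [hij, hd i hi]
  rwa [X_def, coeff_add_monomial_mul, one_mul] at this

lemma decomp [CommRing K] [Fintype σ] (f : MvPowerSeries σ K) :
    ∃ e : σ → MvPowerSeries σ K, f = C (constantCoeff f) + ∑ j, X j * e j := by
  classical
  have : f - C (constantCoeff f) ∈ Ideal.span (X '' Set.univ : Set (MvPowerSeries σ K)) := by
    rw [mem_span_X]
    intro d hd
    obtain rfl : d = 0 := Finsupp.ext fun i => hd i trivial
    simp
  rw [Set.image_univ, Ideal.mem_span_range_iff_exists_fun] at this
  obtain ⟨c, hc⟩ := this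
  exact ⟨c, by rw [← sub_eq_iff_eq_add', ← hc]; exact Finset.sum_congr rfl fun j _ => mul_comm _ _⟩

lemma X_mem_max [Field K] (j : σ) : (X j : MvPowerSeries σ K) ∈ maximalIdeal _ := fun h => by
  simpa using isUnit_iff_constantCoeff.1 h

lemma max_eq [Field K] [Finite σ] :
    maximalIdeal (MvPowerSeries σ K) = Ideal.span (Set.range X) := by
  have := Fintype.ofFinite σ
  apply le_antisymm
  · intro f hf
    obtain ⟨e, he⟩ := decomp f
    have h0 : constantCoeff f = 0 := by
      by_contra h0
      exact hf (isUnit_iff_constantCoeff.2 (IsUnit.mk0 _ h0))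
    rw [he, h0, map_zero, zero_add]
    exact Ideal.sum_mem _ fun j _ => Ideal.mul_mem_right _ _ (Ideal.subset_span ⟨j, rfl⟩)
  · rw [Ideal.span_le]
    rintro _ ⟨j, rfl⟩
    exact X_mem_max j

lemma card_le_dim [Field K] (σ : Type) [Finite σ] :
    (Nat.card σ : WithBot ℕ∞) ≤ ringKrullDim (MvPowerSeries σ K) := by
  induction σ using Finite.induction_empty_option with
  | of_equiv e H =>
    rw [← Nat.card_congr e, ← ringKrullDim_eq_of_ringEquiv (renameEquiv K e).toRingEquiv]
    exact H
  | h_empty => simpa using ringKrullDim_nonneg_of_nontrivial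
  | h_option IH =>
    simp only [Nat.card_eq_fintype_card, Fintype.card_option, Nat.cast_add, Nat.cast_one] at IH ⊢
    grw [IH, ringKrullDim_succ_le_ringKrullDim_powerseries]
    exact (ringKrullDim_eq_of_ringEquiv (optionEquivLeft _ _).toRingEquiv).ge

lemma regular [Field K] [Finite σ] : IsRegularLocalRing (MvPowerSeries σ K) := by
  apply IsRegularLocalRing.of_spanFinrank_maximalIdeal_le
  refine le_trans ?_ (card_le_dim σ)
  rw [max_eq]
  have h1 := Submodule.spanFinrank_span_le_ncard_of_finite (R := MvPowerSeries σ K)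
    (Set.finite_range (X : σ → MvPowerSeries σ K))
  have h2 : (Set.range (X : σ → MvPowerSeries σ K)).ncard ≤ Nat.card σ := by
    rw [← Set.image_univ, ← Set.ncard_univ]
    exact Set.ncard_image_le
  exact_mod_cast h1.trans h2

lemma complete_quot [Field K] [Finite σ] (J : Ideal (MvPowerSeries σ K))
    [IsLocalRing (MvPowerSeries σ K ⧸ J)] :
    IsAdicComplete (maximalIdeal (MvPowerSeries σ K ⧸ J)) (MvPowerSeries σ K ⧸ J) := by
  have h1 : IsAdicComplete (maximalIdeal (MvPowerSeries σ K)) (MvPowerSeries σ K) := by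
    rw [max_eq]
    infer_instance
  have h2 : IsPrecomplete (maximalIdeal (MvPowerSeries σ K)) (MvPowerSeries σ K ⧸ J) := by
    rw [← AdicCompletion.of_surjective_iff]
    intro y
    obtain ⟨x, rfl⟩ := AdicCompletion.map_surjective _ J.mkQ_surjective y
    obtain ⟨x, rfl⟩ := AdicCompletion.of_surjective _ _ x
    exact ⟨J.mkQ x, (AdicCompletion.map_of _ _ _).symm⟩
  have h3 : (maximalIdeal (MvPowerSeries σ K)).map (algebraMap _ (MvPowerSeries σ K ⧸ J)) =
      maximalIdeal _ := map_maximalIdeal_of_surjective _ Ideal.Quotient.mk_surjective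
  rw [← IsPrecomplete.map_algebraMap_iff (S := MvPowerSeries σ K ⧸ J), h3] at h2
  exact { toIsHausdorff := inferInstance, toIsPrecomplete := h2 }

/-- `A` is a quotient of a power series ring over `S`, compatibly with the augmentation. -/
def Tow (S : Type) [CommRing S] (n : ℕ) (A : Type) [CommRing A] (cc : A →+* S) : Prop :=
  ∃ ω : MvPowerSeries (Fin n) S →+* A, Function.Surjective ω ∧ ∀ p, cc (ω p) = constantCoeff p

lemma tow_zero (S : Type) [CommRing S] : Tow S 0 S (RingHom.id S) :=
  ⟨constantCoeff, fun s => ⟨C s, constantCoeff_C s⟩, fun _ => rfl⟩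

lemma Tow.succ {S : Type} [CommRing S] {n : ℕ} {A : Type} [CommRing A] {cc : A →+* S}
    (h : Tow S n A cc) : Tow S (n + 1) (PowerSeries A) (cc.comp PowerSeries.constantCoeff) := by
  obtain ⟨ω, h1, h2⟩ := h
  refine ⟨(PowerSeries.map ω).comp (finSuccEquiv S n).toRingEquiv.toRingHom,
    (PowerSeries.map_surjective ω h1).comp (finSuccEquiv S n).surjective, fun p => ?_⟩
  change cc (PowerSeries.constantCoeff (PowerSeries.map ω (finSuccEquiv S n p))) = _
  rw [← PowerSeries.coeff_zero_eq_constantCoeff_apply, PowerSeries.coeff_map, h2,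
    ← coeff_zero_eq_constantCoeff_apply, coeff_coeff_finSuccEquiv, Finsupp.cons_zero_zero,
    coeff_zero_eq_constantCoeff_apply]

lemma Tow.exists_hom [CommRing K] [Finite σ] {S : Type} [CommRing S] [Algebra K S] {n : ℕ}
    {A : Type} [CommRing A] {cc : A →+* S} (h : Tow S n A cc) (val : σ → A)
    (hv : ∀ j, cc (val j) = 0) : ∃ θ : MvPowerSeries σ K →+* A, ∀ j, θ (X j) = val j := by
  obtain ⟨ω, h1, h2⟩ := h
  choose a ha using fun j => h1 (val j)
  have hs : HasSubst a := hasSubst_of_constantCoeff_zero fun j => by rw [← h2, ha, hv]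
  exact ⟨ω.comp (substAlgHom (R := K) hs).toRingHom, fun j => by
    change ω (substAlgHom (R := K) hs (X j)) = _
    rw [substAlgHom_X, ha]⟩

/-- An additive map that is killed by contraction vanishes. -/
lemma vanish [Fintype σ] {A H : Type} [CommRing A] [CommRing H] [IsDomain H] [IsNoetherianRing H]
    (z : σ → A) (hD : ∀ r : A, ∃ (n : ℕ) (e : σ → A), r = n + ∑ j, z j * e j) (𝔞 : Ideal H)
    (h𝔞 : 𝔞 ≠ ⊤) (L : A →+ H) (h1 : L 1 = 0) (a : σ → H) (ha : ∀ j, a j ∈ 𝔞)
    (hL : ∀ j r, L (z j * r) = a j * L r) (r : A) : L r = 0 := by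
  have key : ∀ (m : ℕ) (r : A), L r ∈ 𝔞 ^ m := by
    intro m
    induction m with
    | zero => simp
    | succ m ih =>
      intro r
      obtain ⟨n, e, rfl⟩ := hD r
      rw [map_add, ← nsmul_one, map_nsmul, h1, smul_zero, zero_add, map_sum, pow_succ']
      exact Ideal.sum_mem _ fun j _ => by rw [hL]; exact Ideal.mul_mem_mul (ha j) (ih _)
  have := Ideal.iInf_pow_eq_bot_of_isDomain 𝔞 h𝔞
  rw [← Ideal.mem_bot, ← this]
  exact Ideal.mem_iInf.2 fun m => key m r

lemma decomp_two [Fintype σ] (f : MvPowerSeries σ (ZMod 2)) :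
    ∃ (n : ℕ) (e : σ → MvPowerSeries σ (ZMod 2)), f = n + ∑ j, X j * e j := by
  obtain ⟨e, he⟩ := decomp f
  refine ⟨(constantCoeff f).val, e, ?_⟩
  rwa [← map_natCast (C : ZMod 2 →+* MvPowerSeries σ (ZMod 2)), ZMod.natCast_zmod_val]

end Pool.Agent.Lib.MP_b9b9f8_al.Wild
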