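import Mathlib
import Pool.Agent.Lib.MP_b9b9f8_al.Wild.PS

/-! The three test homomorphisms and their compatibility along the two axes. -/

namespace Pool.Agent.Lib.MP_b9b9f8_al.Wild

open PowerSeries

/-- Polynomials over the field with two elements. -/
abbrev S0 : Type := Polynomial (ZMod 2)

/-- The base of the test ring. -/
abbrev D0 : Type := S0⟦X⟧⟦X⟧

/-- A plane over the base. -/
abbrev G0 : Type := D0⟦X⟧⟦X⟧

/-- The names of the variables. -/
abbrev VV : Type := Fin 12 ⊕ Fin 7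

/-- The regular local ring. -/
abbrev Q0 : Type := MvPowerSeries VV (ZMod 2)

/-- A variable of the first group. -/
noncomputable abbrev zl (j : Fin 12) : Q0 := MvPowerSeries.X (Sum.inl j)

/-- A variable of the second group. -/
noncomputable abbrev zr (j : Fin 7) : Q0 := MvPowerSeries.X (Sum.inr j)

/-- The polynomial variable in the base. -/
noncomputable def zt : D0 := C (C Polynomial.X)

/-- The monodromy of the three planes. -/
noncomputable def lam : Fin 3 → D0 := ![1, 1 + C X, 1 + X]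

/-- Power series in the first variable of the base. -/
noncomputable def e1 : (ZMod 2)⟦X⟧ →+* D0 := C.comp (map Polynomial.C)

/-- Power series in the second variable of the base. -/
noncomputable def e2 : (ZMod 2)⟦X⟧ →+* D0 := map (C.comp Polynomial.C)

/-- The values of the variables of the first group. -/
noncomputable def p0 (i : Fin 3) : Fin 12 → G0 :=
  ![0, 0, 0, C X ^ 2, -(C (C (lam i)) * C X * X), 0, C X, X, C (C (C X)), C (C X),
    C (C (X * zt)), C (C (C X * zt))]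

/-- The values of the variables of the second group. -/
noncomputable def p1 (m₁ m₂ : D0) (i : Fin 3) : Fin 7 → G0 :=
  ![C X * C (C (![m₁, 1, 0] i)), C X * C (C (![m₂, 0, 1] i)), X * C (C (![1, 1, 0] i)),
    X * C (C (![1, 0, 1] i)), C X * X * C (C (![1, 0, 0] i)), C X * X * C (C (![0, 1, 0] i)),
    C X * X * C (C (![0, 0, 1] i))]

/-- The values of all variables. -/
noncomputable def val (m₁ m₂ : D0) (i : Fin 3) : VV → G0⟦X⟧ :=
  Sum.elim (fun j => C (p0 i j)) fun j => X * C (p1 m₁ m₂ i j)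

/-- The augmentation of a line over the base. -/
noncomputable def ccH : D0⟦X⟧ →+* S0 :=
  (((RingHom.id S0).comp constantCoeff).comp constantCoeff).comp constantCoeff

/-- The augmentation of the test ring. -/
noncomputable def ccC : G0⟦X⟧ →+* S0 := (ccH.comp constantCoeff).comp constantCoeff

variable {m₁ m₂ : D0}

lemma cc_val (i : Fin 3) (j : VV) : ccC (val m₁ m₂ i j) = 0 := by
  rcases j with j | j
  · fin_cases j <;> simp [ccC, ccH, val, p0]
  · simp [ccC, val]

lemma exists_theta (m₁ m₂ : D0) : ∃ θ : Fin 3 → Q0 →+* G0⟦X⟧,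
    ∀ i j, θ i (MvPowerSeries.X j) = val m₁ m₂ i j := by
  choose θ hθ using fun i => (tow_zero S0).succ.succ.succ.succ.succ.exists_hom (K := ZMod 2)
    (val m₁ m₂ i) (cc_val i)
  exact ⟨θ, hθ⟩

variable {θ : Fin 3 → Q0 →+* G0⟦X⟧} (hθ : ∀ i j, θ i (MvPowerSeries.X j) = val m₁ m₂ i j)

include hθ

lemma axis (π : G0 →+* D0⟦X⟧) (n₁ n₂ : D0⟦X⟧) (h0 : ∀ i j, π (p0 i j) = π (p0 0 j))
    (hm : ∀ j, ccH (π (p0 0 j)) = 0)
    (h1 : ∀ j, π (p1 m₁ m₂ 0 j) = n₁ * π (p1 m₁ m₂ 1 j) + n₂ * π (p1 m₁ m₂ 2 j)) :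
    (∀ i r, π (constantCoeff (θ i r)) = π (constantCoeff (θ 0 r))) ∧
      ∀ r, π (coeff 1 (θ 0 r)) = n₁ * π (coeff 1 (θ 1 r)) + n₂ * π (coeff 1 (θ 2 r)) := by
  have a0 : ∀ i j, π (constantCoeff (val m₁ m₂ i j)) = π (constantCoeff (val m₁ m₂ 0 j)) := by
    rintro i (j | j)
    · simpa [val] using h0 i j
    · simp [val]
  have a1 : ∀ j, π (constantCoeff (val m₁ m₂ 0 j)) ∈ RingHom.ker ccH := by
    rintro (j | j)
    · simpa [val] using hm j
    · simp [val]
  have a2 : ∀ j, π (coeff 1 (val m₁ m₂ 0 j)) =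
      n₁ * π (coeff 1 (val m₁ m₂ 1 j)) + n₂ * π (coeff 1 (val m₁ m₂ 2 j)) := by
    rintro (j | j)
    · simp [val]
    · simpa [val, coeff_succ_X_mul] using h1 j
  have b0 : ∀ i r, π (constantCoeff (θ i r)) = π (constantCoeff (θ 0 r)) := fun i r =>
    sub_eq_zero.1 (vanish MvPowerSeries.X decomp_two _ (RingHom.ker_ne_top ccH)
      (AddMonoidHom.mk' (fun r => π (constantCoeff (θ i r)) - π (constantCoeff (θ 0 r)))
        fun r s => by simp only [map_add]; ring) (by simp) _ a1 (fun j r => by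
          simp only [AddMonoidHom.mk'_apply, map_mul, hθ, a0 i]
          ring) r)
  refine ⟨b0, fun r => sub_eq_zero.1 (vanish MvPowerSeries.X decomp_two _ (RingHom.ker_ne_top ccH)
    (AddMonoidHom.mk' (fun r => π (coeff 1 (θ 0 r)) -
      (n₁ * π (coeff 1 (θ 1 r)) + n₂ * π (coeff 1 (θ 2 r))))
        fun r s => by simp only [map_add]; ring) (by simp [coeff_one]) _ a1 (fun j r => ?_) r)⟩
  simp only [AddMonoidHom.mk'_apply, map_mul, coeff_one_mul, map_add, hθ, a0 1, a0 2, b0 1, b0 2, a2]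
  ring

lemma axis_x : (∀ i r, constantCoeff (constantCoeff (θ i r)) =
      constantCoeff (constantCoeff (θ 0 r))) ∧ ∀ r, constantCoeff (coeff 1 (θ 0 r)) =
      C m₁ * constantCoeff (coeff 1 (θ 1 r)) + C m₂ * constantCoeff (coeff 1 (θ 2 r)) :=
  axis hθ constantCoeff _ _ (fun i j => by fin_cases j <;> simp [p0])
    (fun j => by fin_cases j <;> simp [p0, ccH]) fun j => by fin_cases j <;> simp [p1, mul_comm]

lemma axis_y : (∀ i r, map constantCoeff (constantCoeff (θ i r)) =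
      map constantCoeff (constantCoeff (θ 0 r))) ∧ ∀ r, map constantCoeff (coeff 1 (θ 0 r)) =
      map constantCoeff (coeff 1 (θ 1 r)) + map constantCoeff (coeff 1 (θ 2 r)) := by
  simpa using axis hθ (map constantCoeff) 1 1 (fun i j => by fin_cases j <;> simp [p0])
    (fun j => by fin_cases j <;> simp [p0, ccH]) fun j => by fin_cases j <;> simp [p1]

lemma theta_emb (i : Fin 3) (j : VV) (e : (ZMod 2)⟦X⟧ →+* D0)
    (h : val m₁ m₂ i j = C (C (C (e X)))) (f : (ZMod 2)⟦X⟧) :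
    θ i (f.toMvPowerSeries j) = C (C (C (e f))) :=
  sub_eq_zero.1 (vanish (fun _ : Unit => (X : (ZMod 2)⟦X⟧))
    (fun r => decomp_two (σ := Unit) r) _ (RingHom.ker_ne_top ccC)
    (AddMonoidHom.mk' (fun f : (ZMod 2)⟦X⟧ => θ i (f.toMvPowerSeries j) - C (C (C (e f))))
      fun r s => by simp only [map_add]; ring) (by simp) (fun _ => val m₁ m₂ i j)
    (fun _ => cc_val i j) (fun _ r => by
      simp only [AddMonoidHom.mk'_apply, map_mul, toMvPowerSeries_X, hθ, h]
      ring) f)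

lemma theta_deg (e : ℕ) : ∀ r, (coeff e (constantCoeff (constantCoeff (constantCoeff
    (constantCoeff (θ 1 r)))))).natDegree ≤ e := by
  have hτ : ∀ j, ∃ τ : S0, τ.natDegree ≤ 1 ∧ constantCoeff (constantCoeff (constantCoeff
      (constantCoeff (val m₁ m₂ 1 j)))) = X * C τ := by
    rintro (j | j)
    · refine ⟨![0, 0, 0, 0, 0, 0, 0, 0, 1, 0, 0, Polynomial.X] j, ?_, ?_⟩ <;> fin_cases j <;>
        simp [val, p0, zt]
    · exact ⟨0, by simp, by simp [val]⟩
  choose τ h1 h2 using hτ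
  induction e with
  | zero =>
    intro r
    obtain ⟨n, c, rfl⟩ := decomp_two r
    simp [hθ, h2]
  | succ e ih =>
    intro r
    obtain ⟨n, c, rfl⟩ := decomp_two r
    simp only [map_add, map_sum, map_mul, hθ, h2, map_natCast, mul_assoc, coeff_succ_X_mul,
      coeff_C_mul]
    rw [← map_natCast (C : S0 →+* S0⟦X⟧), coeff_C, if_neg (by omega), zero_add]
    exact Polynomial.natDegree_sum_le_of_forall_le _ _ fun j _ =>
      Polynomial.natDegree_mul_le.trans (by have := h1 j; have := ih (c j); omega)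

lemma exists_cyc (c : Fin 3 → Q0) (γ : Fin 3 → D0) (hc : ∀ i k, θ i (c k) = C (C (C (γ k))))
    (n : ℕ) (h1 : γ 0 = m₁ * γ 1 + m₂ * γ 2)
    (h2 : γ 0 = lam 1 ^ (n + 1) * γ 1 + lam 2 ^ (n + 1) * γ 2) (j : Fin (n + 2)) :
    ∃ w, ∀ i, θ i w = X * C (C (C (γ i * lam i ^ (j : ℕ))) * C X ^ (n + 1 - j) * X ^ (j : ℕ)) := by
  obtain ⟨j, hj⟩ := j
  rcases j with _ | j
  · refine ⟨zl 6 ^ n * (c 1 * zr 0 + c 2 * zr 1), fun i => ?_⟩
    fin_cases i <;> simp [hθ, hc, val, p0, p1, h1] <;> ring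
  obtain rfl | hj' := (show j ≤ n by omega).eq_or_lt
  · refine ⟨zl 7 ^ j * ((1 + zl 8) ^ (j + 1) * c 1 * zr 2 + (1 + zl 9) ^ (j + 1) * c 2 * zr 3),
      fun i => ?_⟩
    fin_cases i <;> simp [hθ, hc, val, p0, p1, h2, lam] <;> ring
  · obtain ⟨d, rfl⟩ := Nat.exists_eq_add_of_lt hj'
    refine ⟨zl 6 ^ d * zl 7 ^ j * (c 0 * zr 4 + (1 + zl 8) ^ (j + 1) * c 1 * zr 5 +
      (1 + zl 9) ^ (j + 1) * c 2 * zr 6), fun i => ?_⟩
    have e : j + d + 1 + 1 - (j + 1) = d + 1 := by omega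
    fin_cases i <;> simp [hθ, hc, val, p0, p1, lam, e] <;> ring

end Pool.Agent.Lib.MP_b9b9f8_al.Wild
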