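import Mathlib
import Pool.Agent.Lib.MP_b9b9f8_al.Wild.Low
import Pool.Agent.Lib.MP_b9b9f8_al.Wild.Glue
import Pool.Agent.Lib.MP_b9b9f8_al.Wild.Test

/-! The lower bound for the number of generators of `Tor(I, J)`. -/

namespace Pool.Agent.Lib.MP_b9b9f8_al.Wild

open PowerSeries

lemma count {σ : Type} (s : Finset σ) (g : Fin 3 → σ → S0) (r : ℕ)
    (H : ∀ l ≤ r, ∃ q : Fin 3 → σ → S0, (∀ e u, (q e u).natDegree ≤ 2) ∧
      Polynomial.X ^ l = ∑ u ∈ s, ∑ e, q e u * g e u) : r + 1 ≤ 9 * s.card := by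
  let fam : Fin 3 × Fin 3 × s → S0 := fun z => Polynomial.X ^ (z.1 : ℕ) * g z.2.1 z.2.2
  let V : Submodule (ZMod 2) S0 := Submodule.span (ZMod 2) (Set.range fam)
  have hV : Module.finrank (ZMod 2) V ≤ 9 * s.card := by
    refine (finrank_range_le_card fam).trans (le_of_eq ?_)
    simp
    ring
  have hfin : Module.Finite (ZMod 2) V := Module.Finite.span_of_finite _ (Set.finite_range _)
  have hmul : ∀ p : S0, p.natDegree ≤ 2 → ∀ e, ∀ u ∈ s, p * g e u ∈ V := by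
    intro p hp e u hu
    rw [p.as_sum_range' 3 (by omega), Finset.sum_range, Finset.sum_mul]
    refine V.sum_mem fun a _ => ?_
    rw [← Polynomial.smul_X_eq_monomial, smul_mul_assoc]
    exact V.smul_mem _ (Submodule.subset_span ⟨(a, e, ⟨u, hu⟩), rfl⟩)
  have hli := (Polynomial.basisMonomials (ZMod 2)).linearIndependent.comp
    (Fin.val : Fin (r + 1) → ℕ) Fin.val_injective
  have hle : Submodule.span (ZMod 2)
      (Set.range (Polynomial.basisMonomials (ZMod 2) ∘ (Fin.val : Fin (r + 1) → ℕ))) ≤ V := by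
    rw [Submodule.span_le]
    rintro _ ⟨l, rfl⟩
    obtain ⟨q, hq, hq'⟩ := H l (by have := l.2; omega)
    have h1 : ∑ u ∈ s, ∑ e, q e u * g e u ∈ V :=
      V.sum_mem fun u hu => V.sum_mem fun e _ => hmul _ (hq e u) e u hu
    rw [← hq', Polynomial.X_pow_eq_monomial] at h1
    simpa using h1
  have := Submodule.finrank_mono hle
  rw [finrank_span_eq_card hli] at this
  simpa using this.trans hV

lemma lam_unit (i : Fin 3) : IsUnit (lam i) := by
  fin_cases i <;> simp [lam, isUnit_iff_constantCoeff]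

lemma lam_ne (N : ℕ) : lam 1 ^ (N + 1) ≠ 1 := by
  intro h
  have h1 : (((1 + Polynomial.X) ^ (N + 1) : Polynomial S0) : S0⟦X⟧) = 1 := by
    simpa [lam] using congrArg constantCoeff h
  have h2 := congrArg (coeff (N + 1)) h1
  rw [Polynomial.coeff_coe, Polynomial.coeff_one_add_X_pow, coeff_one] at h2
  simp at h2

theorem bound {R : Type} [CommRing R] (mk : Q0 →+* R) (hmk : Function.Surjective mk)
    {μ ε : (ZMod 2)⟦X⟧} {m r : ℕ} (h : μ - (1 + X) ^ (m + 2) = X ^ r * ε)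
    (hε : constantCoeff ε = 1) (θ : Fin 3 → R →+* G0⟦X⟧)
    (hθ : ∀ i j, θ i (mk (MvPowerSeries.X j)) = val (e1 μ) (e2 μ) i j) (K : Kos R)
    (hx : ∀ i k, θ i (K.x k) = 0) (ha : K.a = ![mk (zl 3), 0, 0])
    (hb : K.b = ![mk (zl 4), mk (zl 5), 0]) (I J : Ideal R) (hI : ∀ r ∈ I, ∀ i, θ i r = 0)
    (hI' : ∀ r, (∀ i, θ i r = 0) → mk (zl 8) * r ∈ I) (hJp : J ≤ K.p)
    (hJ : ∀ r ∈ K.p, mk (zl 8) * r ∈ J) (n : ℕ)
    (hn : Gen R (tor R (ModuleCat.of R I) (ModuleCat.of R J) (2 * m + 1 + 1)) n) :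
    r + 1 ≤ 9 * n := by
  have hQ : ∀ i j, ((θ i).comp mk) (MvPowerSeries.X j) = val (e1 μ) (e2 μ) i j := hθ
  have hcc : ∀ f : G0⟦X⟧, constantCoeff (map (constantCoeff : G0 →+* D0⟦X⟧) f) =
      constantCoeff (constantCoeff f) := fun f => by
    rw [← coeff_zero_eq_constantCoeff_apply, coeff_map, coeff_zero_eq_constantCoeff_apply]
  have h1 : e1 μ - lam 1 ^ (m + 2) = C X ^ r * e1 ε := by
    simpa [e1, lam] using congrArg e1 h
  have h2 : e2 μ - lam 2 ^ (m + 2) = X ^ r * e2 ε := by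
    simpa [e2, lam] using congrArg e2 h
  have h3 : constantCoeff (e2 ε) = 1 := by
    rw [e2, ← coeff_zero_eq_constantCoeff_apply, coeff_map, coeff_zero_eq_constantCoeff_apply, hε,
      map_one]
  have h4 : ¬ (X : D0) ∣ C X ^ r * e1 ε := by
    rw [X_dvd_iff, map_mul, map_pow, constantCoeff_C]
    refine mul_ne_zero (pow_ne_zero _ X_ne_zero) fun e => ?_
    have := congrArg (coeff 0) e
    simp [e1, hε] at this
  have hp : ∀ i, ∀ c ∈ K.p, θ i c = 0 := fun i c hc => by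
    obtain ⟨y, rfl⟩ := (K.mem_p c).1 hc
    simp [dotProduct, hx]
  obtain ⟨σ, s, g, hs, hg, H⟩ := low_span ((map constantCoeff).comp (θ 1)) K I J
    (fun k => by simp [hx]) (fun r hr => by simp [hI r hr]) hJp _ hJ m n hn
  have hall : ∀ u, ∃ (c₀ c₁ : D0⟦X⟧) (c' : D0),
      constantCoeff (constantCoeff (θ 1 (g u 0))) = X ^ (m + 2) * c₀ ∧ constantCoeff c₀ = 0 ∧
      constantCoeff (coeff 1 (θ 1 (g u 0))) = X ^ (m + 2) * c₁ ∧ constantCoeff c₁ = X ^ r * c' := by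
    intro u
    obtain ⟨c₀, c₁, d, a1, a2, a3, a4⟩ := glue θ lam lam_unit rfl (e1 μ) (e2 μ)
      (fun i => hmk.forall.2 ((axis_x hQ).1 i)) (hmk.forall.2 (axis_x hQ).2)
      (fun i => hmk.forall.2 ((axis_y hQ).1 i)) (hmk.forall.2 (axis_y hQ).2) (K.a 0) (K.b 0)
      (fun i => by rw [ha]; exact hθ i _) (fun i => by rw [hb]; exact hθ i _) (m + 2)
      (lam_ne _) (g u) fun i j => by
        obtain ⟨c, hc, hc'⟩ := hg u j
        have := hI _ hc' i
        rwa [map_add, hp i c hc, add_zero] at this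
    rw [h1, h2] at a4
    obtain ⟨c', hc'⟩ := X_prime.pow_dvd_of_dvd_mul_left r h4
      (⟨-(e2 ε * d), by linear_combination a4⟩ : X ^ r ∣ C X ^ r * e1 ε * constantCoeff c₁)
    exact ⟨c₀, c₁, c', a1, a2, a3, hc'⟩
  choose c₀ c₁ c' a1 a2 a3 a4 using hall
  refine (count s (fun e u => coeff (2 - (e : ℕ)) (constantCoeff (c' u))) r fun l hl => ?_).trans
    (Nat.mul_le_mul_left _ hs)
  obtain ⟨d, rfl⟩ := Nat.exists_eq_add_of_le hl
  have t1 := fun i => theta_emb hQ i (Sum.inl 8) e1 (by simp [val, p0, e1]) ε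
  have t2 := fun i => theta_emb hQ i (Sum.inl 9) e2 (by simp [val, p0, e2]) ε
  obtain ⟨γ₁, hγ₁⟩ : ∃ γ : D0, γ = X ^ (l + d) * (e2 ε * zt ^ l) := ⟨_, rfl⟩
  obtain ⟨γ₂, hγ₂⟩ : ∃ γ : D0, γ = -(C X ^ (l + d) * (e1 ε * zt ^ l)) := ⟨_, rfl⟩
  obtain ⟨q₁, hq₁⟩ : ∃ q, ∀ i, ((θ i).comp mk) q = C (C (C γ₁)) :=
    ⟨ε.toMvPowerSeries (Sum.inl 9) * zl 9 ^ d * zl 10 ^ l, fun i => by
      rw [map_mul, map_mul, t2, map_pow, map_pow, hQ, hQ, hγ₁]
      simp [val, p0]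
      ring⟩
  obtain ⟨q₂, hq₂⟩ : ∃ q, ∀ i, ((θ i).comp mk) q = C (C (C γ₂)) :=
    ⟨-(ε.toMvPowerSeries (Sum.inl 8) * zl 8 ^ d * zl 11 ^ l), fun i => by
      rw [map_neg, map_mul, map_mul, t1, map_pow, map_pow, hQ, hQ, hγ₂]
      simp [val, p0]
      ring⟩
  choose w hw using exists_cyc hQ
    ![(1 + zl 8) ^ (m + 2) * q₁ + (1 + zl 9) ^ (m + 2) * q₂, q₁, q₂]
    ![lam 1 ^ (m + 2) * γ₁ + lam 2 ^ (m + 2) * γ₂, γ₁, γ₂] (fun i k => by
      fin_cases k
      · simp only [Fin.zero_eta, Matrix.cons_val_zero, map_add, map_mul, map_pow, hQ, hq₁, hq₂]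
        simp [val, p0, lam]
      · exact hq₁ i
      · exact hq₂ i) (m + 1) (by
      simp only [Matrix.cons_val]
      rw [hγ₁, hγ₂]
      linear_combination -(X ^ (l + d) * (e2 ε * zt ^ l)) * h1 + C X ^ (l + d) * (e1 ε * zt ^ l) * h2)
    rfl
  replace hw : ∀ j i, θ i (mk (w j)) = _ := hw
  obtain ⟨ρ, hρ⟩ := H (fun j => mk (zl 8) * mk (w j)) fun j k => by
    rw [mul_assoc, mul_assoc, ← mul_add]
    refine hI' _ fun i => ?_
    obtain ⟨j, hj⟩ := j
    obtain ⟨e, he⟩ := Nat.exists_eq_add_of_lt hj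
    have e1 : m + 1 + 1 - (j + 1) = e := by omega
    have e2 : m + 1 + 1 - j = e + 1 := by omega
    rw [map_add, map_mul, map_mul, hw, hw, ha, hb]
    fin_cases k <;> simp [hθ, val, p0, e1, e2]
    ring
  obtain ⟨ρ, rfl⟩ : ∃ ρ' : σ → Q0, ρ = fun u => mk (ρ' u) := by
    choose ρ' hρ' using fun u => hmk (ρ u)
    exact ⟨ρ', funext fun u => (hρ' u).symm⟩
  refine ⟨fun e u => coeff e (constantCoeff (constantCoeff (constantCoeff (constantCoeff
    (θ 1 (mk (ρ u))))))), fun e u => (theta_deg hQ e (ρ u)).trans (by have := e.2; omega), ?_⟩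
  have b1 : (X : D0⟦X⟧) ^ (m + 2) * C (C X ^ 2 * γ₁) = X ^ (m + 2) * ∑ u ∈ s,
      (constantCoeff (coeff 1 (θ 1 (mk (ρ u)))) * c₀ u +
        c₁ u * constantCoeff (constantCoeff (θ 1 (mk (ρ u))))) := by
    have := congrArg (coeff 1) hρ
    simp only [RingHom.comp_apply, map_sum, coeff_one_mul, hcc, coeff_map, a1, a3] at this
    rw [Finset.mul_sum, ← Finset.sum_congr rfl fun u _ => ?_, ← this]
    · simp [hw, hθ, val, p0, coeff_succ_X_mul]
      ring
    · ring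
  have b2 : (X : D0) ^ (l + d) * (C X ^ 2 * (e2 ε * zt ^ l)) = X ^ (l + d) * ∑ u ∈ s,
      constantCoeff (constantCoeff (constantCoeff (θ 1 (mk (ρ u))))) * c' u := by
    have := congrArg constantCoeff (X_pow_mul_cancel b1)
    simp only [constantCoeff_C, map_sum, map_add, map_mul, a2, a4, mul_zero, zero_add] at this
    rw [Finset.mul_sum, ← Finset.sum_congr rfl fun u _ => ?_, ← this, hγ₁]
    · ring
    · ring
  have b3 := congrArg (fun f => coeff 2 (constantCoeff f)) (X_pow_mul_cancel b2)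
  simp only [map_mul, map_pow, constantCoeff_C, h3, one_mul, zt, map_sum] at b3
  rw [← map_pow, coeff_mul_C, coeff_X_pow_self, one_mul] at b3
  rw [b3]
  refine Finset.sum_congr rfl fun u _ => ?_
  rw [coeff_mul, Finset.Nat.sum_antidiagonal_eq_sum_range_succ_mk, Finset.sum_range]

end Pool.Agent.Lib.MP_b9b9f8_al.Wild
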