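import Mathlib
import Pool.Agent.Lib.MP_b9b9f8_al.Defs

/-! Further definitions used in the statement for problem MP_b9b9f8_al. -/

namespace Pool.Agent.Lib.MP_b9b9f8_al

/-- The Tor curvature `tcurv_R(M, N) = limsup μ(Tor_n(M, N)) ^ (1 / n)`. -/
noncomputable def tcurv (R : Type) [CommRing R] (M N : ModuleCat.{0} R) : ENNReal :=
  Filter.limsup (fun n : ℕ => (mu R (tor R M N n) : ENNReal) ^ ((n : ℝ)⁻¹)) Filter.atTop

/-- Complete intersections: the completion of `R` is the quotient of a regular local ring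
`(Q, n)` by a regular sequence contained in `n ^ 2`. -/
def IsCI (R : Type) [CommRing R] [IsLocalRing R] : Prop :=
  ∃ (Q : Type) (_ : CommRing Q) (_ : IsRegularLocalRing Q) (f : List Q),
    (∀ r ∈ f, r ∈ IsLocalRing.maximalIdeal Q ^ 2) ∧ RingTheory.Sequence.IsRegular Q f ∧
      Nonempty (AdicCompletion (IsLocalRing.maximalIdeal R) R ≃+* Q ⧸ Ideal.ofList f)

end Pool.Agent.Lib.MP_b9b9f8_al
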