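import Mathlib
import Pool.Agent.Lib.MP_b9b9f8_al.Tate

/-! The upper bound for the Betti numbers of the residue field, over any coefficient field. -/

namespace Pool.Agent.Lib.MP_b9b9f8_al.Wild

open Matrix IsLocalRing TensorProduct

variable {k : Type} [Field k] {R : Type} [CommRing R] {M : Type} [AddCommGroup M] [Module R M]

lemma gen_sub [Algebra k R] (𝔪 : Ideal R) (hD : ∀ r : R, ∃ c : k, r - algebraMap k R c ∈ 𝔪)
    (hM : ∀ r ∈ 𝔪, ∀ v : M, r • v = 0) {r : ℕ} (h : Gen R M r) (Z : Submodule R M) :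
    Gen R Z r := by
  obtain ⟨s, hs, hs'⟩ := h
  let _ : Module k M := Module.compHom M (algebraMap k R)
  have hsm : ∀ (c : k) (v : M), c • v = algebraMap k R c • v := fun _ _ => rfl
  have _ : IsScalarTower k R M := ⟨fun c a v => by
    rw [hsm, Algebra.smul_def, mul_smul]⟩
  have hspan : Submodule.span k (s : Set M) = ⊤ := by
    rw [eq_top_iff]
    rintro v -
    have hv : v ∈ Submodule.span R (s : Set M) := by rw [hs']; trivial
    induction hv using Submodule.span_induction with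
    | mem x hx => exact Submodule.subset_span hx
    | zero => exact Submodule.zero_mem _
    | add x y _ _ hx hy => exact Submodule.add_mem _ hx hy
    | smul a x _ hx =>
      obtain ⟨c, hc⟩ := hD a
      have : a • x = c • x := by
        rw [hsm, ← sub_eq_zero, ← sub_smul]
        exact hM _ hc x
      rw [this]
      exact Submodule.smul_mem _ c hx
  have _ : Module.Finite k M := ⟨⟨s, hspan⟩⟩
  have hfr : Module.finrank k M ≤ r := by
    refine le_trans ?_ hs
    have := finrank_span_finset_le_card (R := k) s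
    rw [Set.finrank, hspan, finrank_top] at this
    exact this
  let Z' : Submodule k M := Z.restrictScalars k
  let b := Module.finBasis k Z'
  have hZ : Module.finrank k Z' ≤ r := (Submodule.finrank_le Z').trans hfr
  have := gen_of_family (R := R) (fun i => (⟨(b i).1, (b i).2⟩ : Z)) (by
    rw [eq_top_iff]
    rintro ⟨z, hz⟩ -
    have h1 : (⟨z, hz⟩ : Z) =
        ∑ i, algebraMap k R (b.repr ⟨z, hz⟩ i) • (⟨(b i).1, (b i).2⟩ : Z) := by
      apply Subtype.ext
      have := congrArg Subtype.val (b.sum_repr ⟨z, hz⟩)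
      rw [Submodule.coe_sum] at this ⊢
      exact this.symm
    rw [h1]
    exact Submodule.sum_mem _ fun i _ =>
      Submodule.smul_mem _ _ (Submodule.subset_span ⟨i, rfl⟩))
  exact this.mono (by simpa using hZ)

lemma gen_tor_residue [Algebra k R] [IsLocalRing R]
    (hD : ∀ r : R, ∃ c : k, r - algebraMap k R c ∈ maximalIdeal R)
    (F : Res R (ResidueField R)) (n r : ℕ) (h : Gen R (F.X (n + 1)) r) :
    Gen R (tor R (ModuleCat.of R (ResidueField R)) (ModuleCat.of R (ResidueField R)) (n + 1)) r := by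
  obtain ⟨π, hπ, -⟩ := F.tor_surj (ResidueField R) n
  have h1 : Gen R (ResidueField R ⊗[R] F.X (n + 1)) r :=
    h.of_surj (TensorProduct.mk R (ResidueField R) (F.X (n + 1)) 1)
      (TensorProduct.mk_surjective R _ _ residue_surjective)
  refine (gen_sub (maximalIdeal R) hD ?_ h1 _).of_surj π hπ
  intro a ha v
  induction v using TensorProduct.induction_on with
  | zero => simp
  | tmul c x =>
    rw [TensorProduct.smul_tmul', Algebra.smul_def]
    have : algebraMap R (ResidueField R) a = 0 := (residue_eq_zero_iff a).2 ha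
    rw [this, zero_mul, TensorProduct.zero_tmul]
  | add x y hx hy => rw [smul_add, hx, hy, add_zero]

lemma cxResidue_le_two [Algebra k R] [IsLocalRing R]
    (hD : ∀ r : R, ∃ c : k, r - algebraMap k R c ∈ maximalIdeal R)
    (F : Res R (ResidueField R)) (C : ℕ) (h : ∀ n, Gen R (F.X n) (C * (n + 1))) :
    cxResidue R ≤ 2 := by
  refine iInf₂_le_of_le (2 : ℕ) ⟨2 * C + 1, by positivity, ?_⟩ le_rfl
  filter_upwards [Filter.eventually_ge_atTop 1] with n hn
  obtain ⟨n, rfl⟩ : ∃ n', n = n' + 1 := ⟨n - 1, by omega⟩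
  obtain ⟨m, hm, hm'⟩ := mu_le_of_gen (gen_tor_residue hD F n _ (h (n + 1)))
  refine ⟨m, hm, ?_⟩
  have h1 : (m : ℝ) ≤ C * (n + 1 + 1) := by exact_mod_cast hm'
  have h2 : (((2 : ℕ) : ℤ) - 1) = 1 := by norm_num
  rw [h2, zpow_one]
  push_cast
  have h3 : (0 : ℝ) ≤ C := Nat.cast_nonneg C
  have h4 : (0 : ℝ) ≤ n := Nat.cast_nonneg n
  nlinarith [mul_nonneg h3 h4]

lemma exists_res {σ : Type} (K : Kos R) (z : σ → R) (ξ : Fin 3 → σ) (hz0 : ∀ i, z (ξ i) = K.x i)
    (hreg : ∀ (s : Set σ) (j : σ), (∀ i, ξ i ∈ s) → j ∉ s →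
      ∀ g, z j * g ∈ Ideal.span (z '' s) → g ∈ Ideal.span (z '' s)) (t : Finset σ) :
    ∀ J : Ideal R, J = Ideal.span (z '' (Set.range ξ ∪ (t : Set σ))) →
      ∃ (F : Res R (R ⧸ J)) (C : ℕ), ∀ n, Gen R (F.X n) (C * (n + 1)) := by
  classical
  induction t using Finset.induction_on with
  | empty =>
    intro J hJ
    have : J = K.p := by
      rw [hJ, Kos.p, Finset.coe_empty, Set.union_empty, ← Set.range_comp]
      congr 2
      exact funext hz0
    subst this
    exact ⟨K.resQuot, 4, K.resQuot_gen⟩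
  | insert j t _ ih =>
    intro J hJ
    rw [Finset.coe_insert, Set.union_insert] at hJ
    by_cases hj : j ∈ (Set.range ξ ∪ (t : Set σ))
    · rw [Set.insert_eq_of_mem hj] at hJ
      exact ih J hJ
    · obtain ⟨J₀, hJ₀⟩ : ∃ J₀ : Ideal R,
        J₀ = Ideal.span (z '' (Set.range ξ ∪ (t : Set σ))) := ⟨_, rfl⟩
      obtain ⟨F, C, hF⟩ := ih J₀ hJ₀
      rw [Set.image_insert_eq] at hJ
      have hle : J₀ ≤ J := by
        rw [hJ, hJ₀]
        exact Ideal.span_mono (Set.subset_insert _ _)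
      have hy : ∀ m : R ⧸ J₀, z j • m = 0 → m = 0 := by
        intro m hm
        obtain ⟨g, rfl⟩ := J₀.mkQ_surjective m
        rw [← map_smul, Submodule.mkQ_apply, Submodule.Quotient.mk_eq_zero, hJ₀] at hm
        rw [Submodule.mkQ_apply, Submodule.Quotient.mk_eq_zero, hJ₀]
        exact hreg _ j (fun i => Or.inl ⟨i, rfl⟩) hj g hm
      have hker : ∀ m : R ⧸ J₀, Submodule.factor hle m = 0 ↔ ∃ m', m = z j • m' := by
        intro m
        obtain ⟨g, rfl⟩ := J₀.mkQ_surjective m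
        rw [Submodule.factor_mk, Submodule.mkQ_apply, Submodule.Quotient.mk_eq_zero, hJ,
          Ideal.mem_span_insert, ← hJ₀]
        constructor
        · rintro ⟨c, w, hw, rfl⟩
          refine ⟨J₀.mkQ c, ?_⟩
          rw [← map_smul, Submodule.mkQ_apply, Submodule.mkQ_apply, Submodule.Quotient.eq]
          simpa [mul_comm] using hw
        · rintro ⟨m', hm'⟩
          obtain ⟨c, rfl⟩ := J₀.mkQ_surjective m'
          rw [← map_smul, Submodule.mkQ_apply, Submodule.mkQ_apply, Submodule.Quotient.eq] at hm'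
          exact ⟨c, _, hm', by simp [mul_comm]⟩
      exact ⟨F.cone (z j) hy (Submodule.factor hle) (Submodule.factor_surjective hle) hker, 2 * C,
        F.cone_gen _ _ _ _ _ C hF⟩

/-- Ideals of the form `m q` are Burch. -/
lemma isBurch_mul [IsLocalRing R] [IsNoetherianRing R] (q : Ideal R)
    (hq : maximalIdeal R * q ≠ ⊥) : IsBurch (maximalIdeal R * q) := by
  intro h
  have h1 : q ≤ (maximalIdeal R * q).colon (maximalIdeal R : Set R) := by
    intro r hr
    rw [Submodule.mem_colon]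
    intro s hs
    rw [smul_eq_mul, mul_comm r s]
    exact Ideal.mul_mem_mul hs hr
  have h2 : maximalIdeal R * q ≤ maximalIdeal R • (maximalIdeal R * q) := by
    rw [smul_eq_mul, ← h]
    exact Ideal.mul_mono_right h1
  exact hq (Submodule.eq_bot_of_le_smul_of_le_jacobson_bot (maximalIdeal R) _
    (IsNoetherian.noetherian _) h2 (maximalIdeal_le_jacobson _))

lemma le_mu {c : ℕ} (h : ∀ μ, Gen R M μ → c ≤ μ) : (c : ℕ∞) ≤ mu R M :=
  le_iInf₂ fun s hs => by exact_mod_cast h s.card ⟨s, le_rfl, hs⟩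

lemma growth_top {x : ℕ → ℕ∞} (h : ∃ᶠ n in Filter.atTop, ((n ^ n : ℕ) : ℕ∞) ≤ x n) :
    growth x = ⊤ := by
  refine iInf₂_eq_top.2 fun d hd => ?_
  exfalso
  obtain ⟨a, ha, hev⟩ := hd
  obtain ⟨n₀, hn₀⟩ := exists_nat_gt a
  obtain ⟨n, h1, ⟨m, h2, h3⟩, h4⟩ :=
    (h.and_eventually (hev.and (Filter.eventually_ge_atTop (n₀ + d + 1)))).exists
  rw [h2] at h1
  have h5 : (n : ℝ) ^ n ≤ m := by exact_mod_cast h1
  have h6 : (1 : ℝ) ≤ n := by exact_mod_cast (by omega : 1 ≤ n)
  have h7 : (n : ℝ) ^ ((d : ℤ) - 1) ≤ (n : ℝ) ^ d := by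
    rw [← zpow_natCast]
    exact zpow_le_zpow_right₀ h6 (by omega)
  have h8 : (n : ℝ) ^ (d + 1) ≤ (n : ℝ) ^ n := pow_le_pow_right₀ h6 (by omega)
  have h9 : a < n := hn₀.trans_le (by exact_mod_cast (by omega : n₀ ≤ n))
  have h10 : (0 : ℝ) < (n : ℝ) ^ d := by positivity
  rw [pow_succ] at h8
  nlinarith [mul_le_mul_of_nonneg_left h7 ha.le]

lemma limsup_top {x : ℕ → ℕ∞} (h : ∃ᶠ n in Filter.atTop, ((n ^ n : ℕ) : ℕ∞) ≤ x n) :
    Filter.limsup (fun n : ℕ => (x n : ENNReal) ^ ((n : ℝ)⁻¹)) Filter.atTop = ⊤ := by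
  rw [eq_top_iff, ← ENNReal.iSup_natCast]
  refine iSup_le fun c => Filter.le_limsup_of_frequently_le ?_
  refine (h.and_eventually (Filter.eventually_ge_atTop (c + 1))).mono fun n ⟨h1, h2⟩ => ?_
  have h3 : ((n : ENNReal) ^ n) ≤ (x n : ENNReal) := by
    have := ENat.toENNReal_le.2 h1
    rw [ENat.toENNReal_coe] at this
    exact_mod_cast this
  calc (c : ENNReal) ≤ n := by exact_mod_cast (by omega : c ≤ n)
    _ = ((n : ENNReal) ^ n) ^ ((n : ℝ)⁻¹) := (ENNReal.pow_rpow_inv_natCast (by omega) _).symm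
    _ ≤ _ := ENNReal.rpow_le_rpow h3 (by positivity)

end Pool.Agent.Lib.MP_b9b9f8_al.Wild
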