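import Mathlib

/-! A power series `(1 + X) ^ a` with a very well approximable two-adic exponent `a`. -/

namespace Pool.Agent.Lib.MP_b9b9f8_al.Wild

open PowerSeries

theorem exists_liou (φ : ℕ → ℕ) : ∃ μ : (ZMod 2)⟦X⟧, ∀ n₀ : ℕ, ∃ m ≥ n₀, ∃ (r : ℕ) (ε : (ZMod 2)⟦X⟧),
    μ - (1 + X) ^ (m + 2) = X ^ r * ε ∧ constantCoeff ε = 1 ∧ φ m ≤ r := by
  let e : ℕ → ℕ := fun m => m + φ m
  let M : ℕ → ℕ := fun n => Nat.rec 0 (fun _ m => m + 2 ^ e m) n
  have hM : ∀ n, M (n + 1) = M n + 2 ^ e (M n) := fun _ => rfl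
  let ρ : ℕ → ℕ := fun n => 2 ^ e (M n)
  have h1 : ∀ n, e (M n) < ρ n := fun n => Nat.lt_two_pow_self
  have h2 : ∀ n, ρ n < ρ (n + 1) := fun n => by
    have a1 := h1 (n + 1)
    have a2 : M (n + 1) ≤ e (M (n + 1)) := Nat.le_add_right _ _
    have a3 : ρ n ≤ M (n + 1) := by rw [hM]; exact Nat.le_add_left _ _
    omega
  have h3 : StrictMono ρ := strictMono_nat_of_lt_succ h2
  have h4 : ∀ n, n ≤ M n := fun n => by
    induction n with
    | zero => exact le_rfl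
    | succ n ih =>
      have : 0 < 2 ^ e (M n) := by positivity
      rw [hM]
      omega
  have h5 : ∀ n, n < ρ n := fun n => by
    have a1 := h1 n
    have a2 : M n ≤ e (M n) := Nat.le_add_right _ _
    have := h4 n
    omega
  let P : ℕ → (ZMod 2)⟦X⟧ := fun n => (1 + X) ^ (M n + 2)
  have : CharP (ZMod 2)⟦X⟧ 2 := charP_of_injective_ringHom (C_injective (R := ZMod 2)) 2
  have h6 : ∀ n, P (n + 1) = P n + X ^ ρ n * P n := fun n => by
    change (1 + X) ^ (M (n + 1) + 2) = (1 + X) ^ (M n + 2) + X ^ 2 ^ e (M n) * (1 + X) ^ (M n + 2)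
    rw [hM, add_right_comm, pow_add _ (M n + 2), add_pow_char_pow, one_pow]
    ring
  have h7 : ∀ n k, X ^ ρ n ∣ P (n + k) - P n := fun n k => by
    induction k with
    | zero => simp
    | succ k ih =>
      rw [← add_assoc, h6, add_sub_right_comm]
      exact ih.add ((pow_dvd_pow X (h3.monotone (Nat.le_add_right n k))).mul_right _)
  let μ : (ZMod 2)⟦X⟧ := PowerSeries.mk fun n => coeff n (P n)
  have h8 : ∀ n, X ^ ρ n ∣ μ - P n := fun n => by
    rw [X_pow_dvd_iff]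
    intro k hk
    rw [map_sub, coeff_mk, ← map_sub]
    rcases le_total k n with h | h
    · obtain ⟨j, rfl⟩ := Nat.exists_eq_add_of_le h
      rw [← neg_sub, map_neg, X_pow_dvd_iff.1 (h7 k j) k (h5 k), neg_zero]
    · obtain ⟨j, rfl⟩ := Nat.exists_eq_add_of_le h
      exact X_pow_dvd_iff.1 (h7 n j) _ hk
  refine ⟨μ, fun n => ⟨M n, h4 n, ρ n, ?_⟩⟩
  obtain ⟨g, hg⟩ := h8 (n + 1)
  obtain ⟨j, hj⟩ := Nat.exists_eq_add_of_lt (h2 n)
  refine ⟨X ^ (j + 1) * g + P n, ?_, by simp [P], ?_⟩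
  · rw [h6, hj] at hg
    change μ - P n = _
    linear_combination hg
  · have a1 := h1 n
    have a2 : φ (M n) ≤ e (M n) := Nat.le_add_left _ _
    omega

end Pool.Agent.Lib.MP_b9b9f8_al.Wild
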