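import Mathlib
import Pool.Agent.Lib.MP_b9b9f8_al.Lift
import Pool.Agent.Lib.MP_b9b9f8_al.Wild.Defs
import Pool.Agent.Lib.MP_b9b9f8_al.Wild.GenK
import Pool.Agent.Lib.MP_b9b9f8_al.Wild.Liou
import Pool.Agent.Lib.MP_b9b9f8_al.Wild.Bound

/-! The complete intersection `F₂[[z]] / (z₃ z₀, z₄ z₀ + z₅ z₁)` in nineteen variables and its
pairs of Burch ideals with wild `Tor`. -/

namespace Pool.Agent.Lib.MP_b9b9f8_al.Wild

open Matrix IsLocalRing MvPowerSeries

instance : IsDomain Q0 := NoZeroDivisors.to_isDomain _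

lemma zl_ne (j : Fin 12) : zl j ≠ 0 := fun h => by
  simpa using congrArg (coeff (Finsupp.single (Sum.inl j : VV) 1)) h

lemma reg_one {i j : Fin 12} (hj : j ≠ i) {g : Q0} (h : zl i ∣ zl j * g) : zl i ∣ g := by
  have := reg_X {(Sum.inl i : VV)} (Sum.inl j) (by simpa using hj) g
  rw [Set.image_singleton, Ideal.mem_span_singleton, Ideal.mem_span_singleton] at this
  exact this h

lemma reg_two {i i' j : Fin 12} (hj : j ≠ i) (hj' : j ≠ i') {g : Q0}
    (h : ∃ a b, a * zl i + b * zl i' = zl j * g) : ∃ a b, a * zl i + b * zl i' = g := by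
  have := reg_X {(Sum.inl i : VV), Sum.inl i'} (Sum.inl j) (by simp [hj, hj']) g
  rw [Set.image_pair, Ideal.mem_span_pair, Ideal.mem_span_pair] at this
  exact this h

lemma reg_f {g : Q0} (h : zl 3 ∣ (zl 4 * zl 0 + zl 5 * zl 1) * g) : zl 3 ∣ g := by
  let J : Ideal Q0 := (Ideal.span {zl 3}).colon {zl 4 * zl 0 + zl 5 * zl 1}
  have hJ : ∀ u, u ∈ J ↔ zl 3 ∣ (zl 4 * zl 0 + zl 5 * zl 1) * u := fun u => by
    rw [Submodule.mem_colon_singleton, Ideal.mem_span_singleton, smul_eq_mul, mul_comm]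
  have : J ≤ Ideal.span {zl 3} := by
    refine Submodule.le_of_le_smul_of_le_jacobson_bot (IsNoetherian.noetherian J)
      (maximalIdeal_le_jacobson _) fun u hu => ?_
    obtain ⟨c, hc⟩ := (hJ u).1 hu
    obtain ⟨a, b, rfl⟩ := reg_two (i := 3) (i' := 4) (j := 1) (g := u) (by decide) (by decide)
      (reg_two (j := 5) (by decide) (by decide) ⟨c, -(zl 0 * u), by linear_combination -hc⟩)
    refine Submodule.add_mem_sup (Ideal.mul_mem_left _ _ (Ideal.mem_span_singleton_self _)) ?_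
    rw [mul_comm]
    refine Submodule.smul_mem_smul (X_mem_max _) ((hJ b).2 (reg_one (j := 4) (by decide) ?_))
    exact ⟨c - (zl 4 * zl 0 + zl 5 * zl 1) * a, by linear_combination hc⟩
  exact Ideal.mem_span_singleton.1 (this ((hJ g).2 h))

/-- The ambient data. -/
noncomputable def amb : Amb Q0 where
  x := ![zl 0, zl 1, zl 2]
  a := ![zl 3, 0, 0]
  b := ![zl 4, zl 5, 0]
  x0 := zl_ne 0
  x1 g h hg := reg_one (i := 0) (j := 1) (by decide) ⟨h, hg⟩
  x2 g h h' hg := by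
    obtain ⟨a, b, rfl⟩ := reg_two (i := 0) (i' := 1) (j := 2) (g := g) (by decide) (by decide)
      ⟨h, h', by rw [mul_comm h, mul_comm h']; exact hg.symm⟩
    exact ⟨a, b, by rw [mul_comm a, mul_comm b]; rfl⟩
  f1 := by simp [dotProduct, Fin.sum_univ_three, zl_ne]
  f2 g h hg := by
    simp only [dotProduct, Fin.sum_univ_three, cons_val, zero_mul, add_zero] at hg ⊢
    obtain ⟨g, rfl⟩ : zl 0 ∣ g := reg_one (j := 1) (by decide) (reg_one (j := 5) (by decide)
      ⟨zl 3 * h - zl 4 * g, by linear_combination hg⟩)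
    obtain ⟨g, rfl⟩ : zl 3 ∣ g := reg_f ⟨h, mul_left_cancel₀ (zl_ne 0) (by linear_combination hg)⟩
    exact ⟨g, by ring⟩
  a0 g y hg := by
    have e : (X '' {Sum.inl 0, Sum.inl 1, Sum.inl 2} : Set Q0) = Set.range ![zl 0, zl 1, zl 2] := by
      rw [Set.image_insert_eq, Set.image_pair, Matrix.range_cons, Matrix.range_cons,
        Matrix.range_cons, Matrix.range_empty, Set.union_empty]
      rfl
    have := reg_X {(Sum.inl 0 : VV), Sum.inl 1, Sum.inl 2} (Sum.inl 3) (by simp) g (by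
      rw [e, Ideal.mem_span_range_iff_exists_fun]
      exact ⟨y, (dotProduct_comm _ _).trans hg.symm⟩)
    rw [e, Ideal.mem_span_range_iff_exists_fun] at this
    obtain ⟨c, hc⟩ := this
    exact ⟨c, hc.symm.trans (dotProduct_comm _ _)⟩

/-- The defining ideal. -/
noncomputable def fI : Ideal Q0 := Ideal.ofList [amb.a ⬝ᵥ amb.x, amb.b ⬝ᵥ amb.x]

lemma mem_fI (q : Q0) : q ∈ fI ↔ ∃ α β, q = (amb.a ⬝ᵥ amb.x) * α + (amb.b ⬝ᵥ amb.x) * β := by
  have : fI = Ideal.span {amb.a ⬝ᵥ amb.x, amb.b ⬝ᵥ amb.x} := by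
    rw [fI, Ideal.ofList]
    congr 1
    ext r
    simp
  rw [this, Ideal.mem_span_pair]
  exact ⟨fun ⟨α, β, h⟩ => ⟨α, β, by rw [← h]; ring⟩, fun ⟨α, β, h⟩ => ⟨α, β, by rw [h]; ring⟩⟩

lemma f_mem : ∀ r ∈ [amb.a ⬝ᵥ amb.x, amb.b ⬝ᵥ amb.x], r ∈ maximalIdeal Q0 ^ 2 := by
  have h : ∀ i j, zl i * zl j ∈ maximalIdeal Q0 ^ 2 := fun i j => by
    rw [pow_two]
    exact Ideal.mul_mem_mul (X_mem_max _) (X_mem_max _)
  simp [amb, dotProduct, Fin.sum_univ_three, h, add_mem]

/-- The ring of the counterexample. -/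
abbrev R0 : Type := Q0 ⧸ fI

instance : Nontrivial R0 := Ideal.Quotient.nontrivial_iff.2 fun h => by
  have : fI ≤ maximalIdeal Q0 := Ideal.span_le.2 fun r hr =>
    Ideal.pow_le_self two_ne_zero (f_mem r hr)
  exact (maximalIdeal.isMaximal Q0).ne_top (top_le_iff.1 (h ▸ this))

instance : IsLocalRing R0 :=
  IsLocalRing.of_surjective' (Ideal.Quotient.mk fI) Ideal.Quotient.mk_surjective

/-- The Koszul data over the ring of the counterexample. -/
noncomputable def kos : Kos R0 :=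
  amb.toKos (Ideal.Quotient.mk fI) Ideal.Quotient.mk_surjective fun q => by
    rw [Ideal.Quotient.eq_zero_iff_mem, mem_fI]

lemma isCI : IsCI R0 := by
  have := complete_quot fI
  refine ⟨Q0, inferInstance, regular, _, f_mem, ?_,
    ⟨(AdicCompletion.ofAlgEquiv (maximalIdeal R0)).symm.toRingEquiv⟩⟩
  rw [isRegular_iff_isWeaklyRegular_of_subset_maximalIdeal fun r hr =>
    Ideal.pow_le_self two_ne_zero (f_mem r hr), RingTheory.Sequence.isWeaklyRegular_cons_iff,
    RingTheory.Sequence.isWeaklyRegular_singleton_iff, isSMulRegular_quotient_iff_mem_of_smul_mem]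
  refine ⟨fun u v h => mul_left_cancel₀ amb.f1 h, fun g hg => ?_⟩
  obtain ⟨h, -, hh⟩ := (Submodule.mem_smul_pointwise_iff_exists _ _ _).1 hg
  obtain ⟨r, rfl⟩ := amb.f2 g h hh.symm
  exact (Submodule.mem_smul_pointwise_iff_exists _ _ _).2 ⟨r, trivial, rfl⟩

lemma mk_mem (j : VV) : Ideal.Quotient.mk fI (X j) ∈ maximalIdeal R0 := by
  rw [← map_maximalIdeal_of_surjective _ (Ideal.Quotient.mk_surjective (I := fI))]
  exact Ideal.mem_map_of_mem _ (X_mem_max j)

lemma cx_le : cxResidue R0 ≤ 2 := by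
  obtain ⟨F, c, hF⟩ := exists_res kos (fun j => Ideal.Quotient.mk fI (X j))
    ![Sum.inl 0, Sum.inl 1, Sum.inl 2] (fun i => by fin_cases i <;> rfl) (fun s j hs hj g hg => by
      obtain ⟨g, rfl⟩ := Ideal.Quotient.mk_surjective g
      have e : Ideal.span ((fun j => Ideal.Quotient.mk fI (X j)) '' s) =
          (Ideal.span (X '' s)).map (Ideal.Quotient.mk fI) := by
        rw [Ideal.map_span, Set.image_image]
      have hle : fI ≤ Ideal.span (X '' s) := by
        have hx : ∀ y : Fin 3 → Q0, y ⬝ᵥ amb.x ∈ Ideal.span (X '' s : Set Q0) := fun y =>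
          Ideal.sum_mem _ fun i _ => Ideal.mul_mem_left _ _
            (Ideal.subset_span ⟨_, hs i, by fin_cases i <;> rfl⟩)
        intro q hq
        obtain ⟨α, β, rfl⟩ := (mem_fI q).1 hq
        exact add_mem (Ideal.mul_mem_right _ _ (hx _)) (Ideal.mul_mem_right _ _ (hx _))
      rw [e, ← map_mul, Ideal.mem_quotient_iff_mem hle] at hg
      rw [e, Ideal.mem_quotient_iff_mem hle]
      exact reg_X s j hj g hg) Finset.univ (maximalIdeal R0) (by
      rw [← map_maximalIdeal_of_surjective _ (Ideal.Quotient.mk_surjective (I := fI)), max_eq,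
        Ideal.map_span, Finset.coe_univ, Set.union_univ, Set.image_univ, ← Set.range_comp]
      rfl)
  refine cxResidue_le_two (k := ZMod 2) (fun r => ?_) F c hF
  obtain ⟨r, rfl⟩ := Ideal.Quotient.mk_surjective r
  obtain ⟨e, he⟩ := decomp r
  refine ⟨constantCoeff r, ?_⟩
  change Ideal.Quotient.mk fI r - Ideal.Quotient.mk fI (C (constantCoeff r)) ∈ _
  rw [← map_sub, sub_eq_iff_eq_add'.2 he, map_sum]
  exact Ideal.sum_mem _ fun j _ => by rw [map_mul]; exact Ideal.mul_mem_right _ _ (mk_mem j)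

theorem wild (φ : ℕ → ℕ) : ∃ I J : Ideal R0, IsBurch I ∧ IsBurch J ∧
    I.radical ≠ maximalIdeal R0 ∧ ∃ᶠ n in Filter.atTop,
      (φ n : ℕ∞) ≤ mu R0 (tor R0 (ModuleCat.of R0 I) (ModuleCat.of R0 J) n) := by
  obtain ⟨μ, hμ⟩ := exists_liou fun m => 9 * φ (2 * m + 1 + 1)
  obtain ⟨θ', hθ'⟩ := exists_theta (e1 μ) (e2 μ)
  let θ : Fin 3 → R0 →+* PowerSeries G0 := fun i => Ideal.Quotient.lift fI (θ' i) fun q hq => by
    obtain ⟨α, β, rfl⟩ := (mem_fI q).1 hq
    simp [amb, dotProduct, Fin.sum_univ_three, hθ', val, p0]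
  have hθ : ∀ i j, θ i (Ideal.Quotient.mk fI (X j)) = val (e1 μ) (e2 μ) i j := hθ'
  have hx : ∀ i k, θ i (kos.x k) = 0 := fun i k => by
    fin_cases k <;> exact (hθ i _).trans (by simp [val, p0])
  let q : Ideal R0 := ⨅ i, RingHom.ker (θ i)
  have hq : ∀ r, r ∈ q ↔ ∀ i, θ i r = 0 := fun r => Ideal.mem_iInf
  have hxp : ∀ i, kos.x i ∈ kos.p := fun i => Ideal.subset_span ⟨i, rfl⟩
  have hpq : kos.p ≤ q := Ideal.span_le.2 (by rintro _ ⟨k, rfl⟩; exact (hq _).2 fun i => hx i k)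
  have hne : maximalIdeal R0 * kos.p ≠ ⊥ := fun h3 => by
    have h4 : ∀ i, kos.x i = 0 := fun i => kos.h3 _ (funext fun j => by
      have : kos.x i * kos.x j ∈ maximalIdeal R0 * kos.p :=
        Ideal.mul_mem_mul (by fin_cases i <;> exact mk_mem _) (hxp j)
      rw [h3] at this
      exact this)
    exact one_ne_zero (kos.h3 1 (funext fun j => by simp [h4]))
  refine ⟨maximalIdeal R0 * q, maximalIdeal R0 * kos.p,
    isBurch_mul q fun h => hne (le_bot_iff.1 (h ▸ Ideal.mul_mono_right hpq)),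
    isBurch_mul _ hne, fun h => ?_, ?_⟩
  · obtain ⟨n, hn⟩ : Ideal.Quotient.mk fI (zl 7) ∈ (maximalIdeal R0 * q).radical := by
      rw [h]
      exact mk_mem _
    have := (hq _).1 (Ideal.mul_le_right hn) 0
    rw [map_pow, hθ] at this
    simpa [val, p0] using congrArg PowerSeries.constantCoeff (eq_zero_of_pow_eq_zero this)
  · rw [Filter.frequently_atTop]
    intro n₀
    obtain ⟨m, hm, r, ε, h1, h2, h3⟩ := hμ n₀
    refine ⟨2 * m + 1 + 1, by omega, le_mu fun n hn => ?_⟩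
    have := bound _ Ideal.Quotient.mk_surjective h1 h2 θ hθ kos hx
      (funext fun i => by fin_cases i <;> rfl) (funext fun i => by fin_cases i <;> rfl) _ _
      (fun r hr => (hq r).1 (Ideal.mul_le_right hr))
      (fun r hr => Ideal.mul_mem_mul (mk_mem _) ((hq r).2 hr)) Ideal.mul_le_right
      (fun r hr => Ideal.mul_mem_mul (mk_mem _) hr) n hn
    omega

end Pool.Agent.Lib.MP_b9b9f8_al.Wild
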